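import Pool.Agent.LPW.StmtsC

/-!
# BEZ (squad LPW, block C): a weak form of the theorem of Bezout
-/

set_option autoImplicit false

open Polynomial

namespace Pool.Agent.LPW.H10

/-- relatively prime polynomials over a factorial ring are coprime over the fraction field -/
theorem coprime_map {A : Type} [CommRing A] [IsDomain A] [UniqueFactorizationMonoid A]
    (f g : A[X]) (h : IsRelPrime f g) :
    IsCoprime (f.map (algebraMap A (FractionRing A))) (g.map (algebraMap A (FractionRing A))) := by
  classical
  let K := FractionRing A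
  have hinj : Function.Injective (algebraMap A K) := IsFractionRing.injective A K
  apply isCoprime_of_irreducible_dvd
  · rintro ⟨h1, h2⟩
    have hf : f = 0 := (Polynomial.map_eq_zero_iff hinj).1 h1
    have hg : g = 0 := (Polynomial.map_eq_zero_iff hinj).1 h2
    subst hf hg
    exact not_isUnit_zero (h (dvd_refl 0) (dvd_refl 0))
  · intro z hz hzf hzg
    obtain ⟨r, hr, hz1⟩ := IsLocalization.integerNormalization_spec (nonZeroDivisors A) z
    obtain ⟨z1, hz0⟩ : ∃ z1, z1 = IsLocalization.integerNormalization (nonZeroDivisors A) z :=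
      ⟨_, rfl⟩
    rw [← hz0] at hz1
    have hr0 : algebraMap A K r ≠ 0 := by
      intro h0
      exact nonZeroDivisors.ne_zero hr (hinj (h0.trans (map_zero _).symm))
    have hz2 : z1.map (algebraMap A K) = C (algebraMap A K r) * z := by
      rw [hz1, ← Polynomial.smul_eq_C_mul, algebraMap_smul]
    let iN : StrongNormalizationMonoid A := UniqueFactorizationMonoid.strongNormalizationMonoid
    let iG := UniqueFactorizationMonoid.toNormalizedGCDMonoid A
    have hq := z1.isPrimitive_primPart
    have hz10 : z1 ≠ 0 := by
      rintro rfl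
      rw [Polynomial.map_zero] at hz2
      exact mul_ne_zero (C_ne_zero.2 hr0) hz.ne_zero hz2.symm
    have hcont : algebraMap A K z1.content ≠ 0 := by
      intro h0
      have : z1.content = 0 := hinj (h0.trans (map_zero _).symm)
      exact hz10 (Polynomial.content_eq_zero_iff.1 this)
    have hz3 : C (algebraMap A K z1.content) * z1.primPart.map (algebraMap A K) =
        C (algebraMap A K r) * z := by
      rw [← hz2, ← Polynomial.map_C, ← Polynomial.map_mul, ← Polynomial.eq_C_content_mul_primPart]
    have hz4 : z1.primPart.map (algebraMap A K) ∣ z := by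
      have hu : IsUnit (C (algebraMap A K r)) := Polynomial.isUnit_C.2 hr0.isUnit
      rw [← hu.dvd_mul_left, ← hz3]
      exact dvd_mul_left _ _
    have h5 : z1.primPart ∣ f := hq.dvd_of_fraction_map_dvd_fraction_map (hz4.trans hzf)
    have h6 : z1.primPart ∣ g := hq.dvd_of_fraction_map_dvd_fraction_map (hz4.trans hzg)
    have h7 : IsUnit z1.primPart := h h5 h6
    have h8 : IsUnit (z1.primPart.map (algebraMap A K)) :=
      h7.map (Polynomial.mapRingHom (algebraMap A K))
    have h9 : IsUnit (C (algebraMap A K z1.content) * z1.primPart.map (algebraMap A K)) :=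
      (Polynomial.isUnit_C.2 hcont.isUnit).mul h8
    rw [hz3] at h9
    exact hz.not_isUnit (isUnit_of_mul_isUnit_right h9)

theorem relprime_equiv {M N : Type} [CommMonoid M] [CommMonoid N] (e : M ≃* N) {a b : M}
    (h : IsRelPrime a b) : IsRelPrime (e a) (e b) := by
  intro c h1 h2
  have h3 : e.symm c ∣ a := by
    have := map_dvd e.symm h1
    rwa [e.symm_apply_apply] at this
  have h4 : e.symm c ∣ b := by
    have := map_dvd e.symm h2
    rwa [e.symm_apply_apply] at this
  have h5 := (h h3 h4).map e
  rwa [e.apply_symm_apply] at h5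

theorem totalDegree_det {σ : Type} {n : ℕ} (M : Matrix (Fin n) (Fin n) (MvPolynomial σ ℚ))
    (d : ℕ) (hM : ∀ i j, (M i j).totalDegree ≤ d) : M.det.totalDegree ≤ n * d := by
  rw [Matrix.det_apply]
  apply MvPolynomial.totalDegree_finsetSum_le
  intro s _
  refine (MvPolynomial.totalDegree_smul_le _ _).trans ?_
  refine (MvPolynomial.totalDegree_finsetProd _ _).trans ?_
  calc ∑ i, (M (s i) i).totalDegree ≤ ∑ _i : Fin n, d := Finset.sum_le_sum fun i _ => hM _ _
    _ = n * d := by simp

/-- elimination of the first variable -/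
theorem elim0 (d : ℕ) (F G : MvPolynomial (Fin 2) ℚ) (hF : F.totalDegree ≤ d)
    (hG : G.totalDegree ≤ d) (h : IsRelPrime F G) :
    ∃ p : ℚ[X], p ≠ 0 ∧ p.natDegree ≤ 2 * d * d + d ∧ ∀ P : Fin 2 → ℚ,
      MvPolynomial.eval P F = 0 → MvPolynomial.eval P G = 0 → p.eval (P 1) = 0 := by
  classical
  set e := MvPolynomial.finSuccEquiv ℚ 1 with he
  set f := e F with hf
  set g := e G with hg
  have hfg : IsRelPrime f g := relprime_equiv e.toMulEquiv h
  have hcoef : ∀ (F : MvPolynomial (Fin 2) ℚ), F.totalDegree ≤ d → ∀ i,
      ((e F).coeff i).totalDegree ≤ d := by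
    intro F hF i
    by_cases h0 : (e F).coeff i = 0
    · rw [h0, MvPolynomial.totalDegree_zero]
      exact Nat.zero_le _
    · have := MvPolynomial.totalDegree_coeff_finSuccEquiv_add_le F i h0
      exact (Nat.le_add_right _ _).trans (this.trans hF)
  have hdeg : ∀ (F : MvPolynomial (Fin 2) ℚ), F.totalDegree ≤ d → (e F).natDegree ≤ d := by
    intro F hF
    rw [he, MvPolynomial.natDegree_finSuccEquiv]
    exact (MvPolynomial.degreeOf_le_totalDegree F 0).trans hF
  have heval : ∀ (P : Fin 2 → ℚ) (F : MvPolynomial (Fin 2) ℚ),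
      MvPolynomial.eval P F = ((e F).map (MvPolynomial.eval (fun _ : Fin 1 => P 1))).eval (P 0) := by
    intro P F
    have hP : P = Fin.cons (P 0) (fun _ : Fin 1 => P 1) := by
      funext i
      fin_cases i <;> rfl
    conv_lhs => rw [hP]
    exact MvPolynomial.eval_eq_eval_mv_eval' _ _ _
  -- a polynomial in the second variable which vanishes at the common zeros
  obtain ⟨r, hr0, hrd, hr⟩ : ∃ r : MvPolynomial (Fin 1) ℚ, r ≠ 0 ∧
      r.totalDegree ≤ 2 * d * d + d ∧ ∀ P : Fin 2 → ℚ,
      MvPolynomial.eval P F = 0 → MvPolynomial.eval P G = 0 →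
        MvPolynomial.eval (fun _ => P 1) r = 0 := by
    by_cases hmn : f.natDegree ≠ 0 ∨ g.natDegree ≠ 0
    · refine ⟨f.resultant g, ?_, ?_, ?_⟩
      · intro h0
        have hc := coprime_map f g hfg
        have h1 := resultant_ne_zero _ _ hc
        rw [Polynomial.natDegree_map_eq_of_injective (IsFractionRing.injective _ _),
          Polynomial.natDegree_map_eq_of_injective (IsFractionRing.injective _ _),
          resultant_map_map, h0, map_zero] at h1
        exact h1 rfl
      · have h1 : (f.resultant g).totalDegree ≤ (f.natDegree + g.natDegree) * d := by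
          refine totalDegree_det _ d fun i j => ?_
          unfold sylvester
          rw [Matrix.of_apply]
          refine Fin.addCases (fun j₁ => ?_) (fun j₁ => ?_) j
          · rw [Fin.addCases_left]
            split_ifs
            · exact hcoef G hG _
            · rw [MvPolynomial.totalDegree_zero]
              exact Nat.zero_le _
          · rw [Fin.addCases_right]
            split_ifs
            · exact hcoef F hF _
            · rw [MvPolynomial.totalDegree_zero]
              exact Nat.zero_le _
        have h2 : (f.natDegree + g.natDegree) * d ≤ (d + d) * d :=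
          Nat.mul_le_mul_right _ (Nat.add_le_add (hdeg F hF) (hdeg G hG))
        have h3 : (d + d) * d = 2 * d * d := by ring
        omega
      · intro P h1 h2
        obtain ⟨p, q, -, -, hpq⟩ := exists_mul_add_mul_eq_C_resultant f g le_rfl le_rfl hmn
        have h3 := congrArg (fun t => (t.map (MvPolynomial.eval (fun _ : Fin 1 => P 1))).eval
          (P 0)) hpq
        simp only [Polynomial.map_add, Polynomial.map_mul, Polynomial.map_C,
          Polynomial.eval_add, Polynomial.eval_mul, Polynomial.eval_C] at h3
        rw [← h3, hf, hg, ← heval, ← heval, h1, h2, zero_mul, zero_mul, add_zero]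
    · push Not at hmn
      have hfC : f = C (f.coeff 0) := Polynomial.eq_C_of_natDegree_eq_zero hmn.1
      have hgC : g = C (g.coeff 0) := Polynomial.eq_C_of_natDegree_eq_zero hmn.2
      by_cases hf0 : f.coeff 0 = 0
      · have hg0 : g.coeff 0 ≠ 0 := by
          intro hg0
          rw [hf0, map_zero] at hfC
          rw [hg0, map_zero] at hgC
          rw [hfC, hgC] at hfg
          exact not_isUnit_zero (hfg (dvd_refl 0) (dvd_refl 0))
        refine ⟨g.coeff 0, hg0, ?_, ?_⟩
        · have h1 : (g.coeff 0).totalDegree ≤ d := hcoef G hG 0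
          omega
        · intro P _ h2
          rw [heval, ← hg, hgC, Polynomial.map_C, Polynomial.eval_C] at h2
          exact h2
      · refine ⟨f.coeff 0, hf0, ?_, ?_⟩
        · have h1 : (f.coeff 0).totalDegree ≤ d := hcoef F hF 0
          omega
        · intro P h1 _
          rw [heval, ← hf, hfC, Polynomial.map_C, Polynomial.eval_C] at h1
          exact h1
  -- pass to one variable
  refine ⟨MvPolynomial.aeval (fun _ : Fin 1 => (X : ℚ[X])) r, ?_, ?_, ?_⟩
  · intro h0
    apply hr0
    apply MvPolynomial.funext
    intro x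
    rw [map_zero]
    have h1 : MvPolynomial.eval x r = Polynomial.eval (x 0)
        (MvPolynomial.aeval (fun _ : Fin 1 => (X : ℚ[X])) r) := by
      rw [← Polynomial.coe_aeval_eq_eval, ← MvPolynomial.coe_aeval_eq_eval]
      show (MvPolynomial.aeval x) r = ((Polynomial.aeval (x 0)).comp
        (MvPolynomial.aeval (fun _ : Fin 1 => (X : ℚ[X])))) r
      congr 1
      apply MvPolynomial.algHom_ext
      intro i
      fin_cases i
      simp
    rw [h1, h0, Polynomial.eval_zero]
  · have := MvPolynomial.aeval_natDegree_le r hrd (fun _ : Fin 1 => (X : ℚ[X])) (n := 1)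
      (fun _ => Polynomial.natDegree_X_le)
    rwa [mul_one] at this
  · intro P h1 h2
    have h3 := hr P h1 h2
    have h4 : MvPolynomial.eval (fun _ : Fin 1 => P 1) r = Polynomial.eval (P 1)
        (MvPolynomial.aeval (fun _ : Fin 1 => (X : ℚ[X])) r) := by
      rw [← Polynomial.coe_aeval_eq_eval, ← MvPolynomial.coe_aeval_eq_eval]
      show (MvPolynomial.aeval (fun _ : Fin 1 => P 1)) r = ((Polynomial.aeval (P 1)).comp
        (MvPolynomial.aeval (fun _ : Fin 1 => (X : ℚ[X])))) r
      congr 1
      apply MvPolynomial.algHom_ext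
      intro i
      simp
    rw [← h4]
    exact h3

theorem bez : BezStmt := by
  classical
  intro d
  refine ⟨(2 * d * d + d) * (2 * d * d + d), ?_⟩
  intro F G hF hG h
  obtain ⟨p, hp0, hpd, hp⟩ := elim0 d F G hF hG h
  -- exchange the variables
  let sw : Fin 2 ≃ Fin 2 := Equiv.swap 0 1
  have h' : IsRelPrime (MvPolynomial.rename sw F) (MvPolynomial.rename sw G) :=
    relprime_equiv (MvPolynomial.renameEquiv ℚ sw).toMulEquiv h
  obtain ⟨q, hq0, hqd, hq⟩ := elim0 d _ _ ((MvPolynomial.totalDegree_rename_le sw F).trans hF)
    ((MvPolynomial.totalDegree_rename_le sw G).trans hG) h'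
  let S : Finset (Fin 2 → ℚ) := (q.roots.toFinset ×ˢ p.roots.toFinset).image
    (fun ab => ![ab.1, ab.2])
  have hS : {P : Fin 2 → ℚ | MvPolynomial.eval P F = 0 ∧ MvPolynomial.eval P G = 0} ⊆
      (S : Set (Fin 2 → ℚ)) := by
    intro P hP
    have h1 : p.eval (P 1) = 0 := hp P hP.1 hP.2
    have h2 : q.eval (P 0) = 0 := by
      have h3 := hq (P ∘ sw) (by
        rw [MvPolynomial.eval_rename, Function.comp_assoc]
        have : (sw : Fin 2 → Fin 2) ∘ sw = id := by
          funext i
          simp [sw]
        rw [this, Function.comp_id]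
        exact hP.1) (by
        rw [MvPolynomial.eval_rename, Function.comp_assoc]
        have : (sw : Fin 2 → Fin 2) ∘ sw = id := by
          funext i
          simp [sw]
        rw [this, Function.comp_id]
        exact hP.2)
      have h4 : (P ∘ sw) 1 = P 0 := by
        rw [Function.comp_apply]
        simp [sw]
      rwa [h4] at h3
    rw [Finset.mem_coe, Finset.mem_image]
    refine ⟨(P 0, P 1), ?_, ?_⟩
    · rw [Finset.mem_product, Multiset.mem_toFinset, Multiset.mem_toFinset,
        Polynomial.mem_roots hq0, Polynomial.mem_roots hp0]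
      exact ⟨h2, h1⟩
    · funext i
      fin_cases i <;> rfl
  refine (Set.encard_le_encard hS).trans ?_
  rw [Set.encard_coe_eq_coe_finsetCard]
  have hcard : S.card ≤ (2 * d * d + d) * (2 * d * d + d) := by
    refine Finset.card_image_le.trans ?_
    rw [Finset.card_product]
    refine Nat.mul_le_mul ?_ ?_
    · exact (Multiset.toFinset_card_le _).trans ((Polynomial.card_roots' q).trans hqd)
    · exact (Multiset.toFinset_card_le _).trans ((Polynomial.card_roots' p).trans hpd)
  exact_mod_cast hcard

end Pool.Agent.LPW.H10
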